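import Mathlib
import Pool.Agent.Run7.h355.Hook.Ineq
import Pool.Agent.Run7.h355.Hook.Count
import Pool.Agent.Run7.h355.Hook.Gz

/-!
# Monotonicity in `t` of the total number of `2`-hooks of `t`-regular partitions

For every `t ≥ 3` and every `n`, the total number of hooks of length `2` in all `t`-regular
partitions of `n` is at most the corresponding number for `(t+1)`-regular partitions.
-/

namespace Pool.Agent.Results.MP_6996b5_co.TwoHookMonotone

open Finset Run7.h355.Hook

/-- The `i`-th largest part of the partition `l` (counted from `i = 0`), and `0` when `l` has at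
most `i` parts. -/
def row {n : ℕ} (l : n.Partition) (i : ℕ) : ℕ := (l.parts.sort (· ≥ ·)).getD i 0

/-- The length of the `j`-th column of the Young diagram (counted from `j = 0`), i.e. the number
of parts larger than `j`. -/
def col {n : ℕ} (l : n.Partition) (j : ℕ) : ℕ := (l.parts.filter (fun p => j < p)).card

/-- The hook length of the cell in row `i` and column `j` (both counted from `0`). -/
def hookLength {n : ℕ} (l : n.Partition) (i j : ℕ) : ℕ := (row l i - j) + (col l j - i) - 1

/-- The number of cells `(i, j)` of the Young diagram of `l` with hook length `k`. -/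
def numHooks (k : ℕ) {n : ℕ} (l : n.Partition) : ℕ :=
  ((range n ×ˢ range n).filter (fun c => c.2 < row l c.1 ∧ hookLength l c.1 c.2 = k)).card

/-- `t`-regular partitions: no part is divisible by `t`. -/
def IsRegular (t : ℕ) {n : ℕ} (l : n.Partition) : Prop := ∀ p ∈ l.parts, ¬ t ∣ p

instance (t : ℕ) {n : ℕ} : DecidablePred (fun l : n.Partition => IsRegular t l) := fun _ =>
  inferInstanceAs (Decidable (∀ _ ∈ _, _))

/-- `b_{t,k}(n)`: the total number of hooks of length `k` in all `t`-regular partitions of `n`. -/
def b (t k n : ℕ) : ℕ := ∑ l ∈ univ.filter (fun l : n.Partition => IsRegular t l), numHooks k l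

theorem list_lt (L : List ℕ) (hL : L.Pairwise (· ≥ ·)) (i j : ℕ) :
    j < L.getD i 0 ↔ i < (L.filter (fun p => j < p)).length := by
  induction L generalizing i with
  | nil => simp
  | cons a L ih =>
    have hL' := (List.pairwise_cons.1 hL)
    by_cases ha : j < a
    · rw [List.filter_cons_of_pos (by simpa using ha)]
      cases i with
      | zero => simp [ha]
      | succ i => simpa using ih hL'.2 i
    · have h0 : L.filter (fun p => decide (j < p)) = [] := by
        rw [List.filter_eq_nil_iff]
        intro p hp
        have := hL'.1 p hp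
        simp only [decide_eq_true_eq]
        omega
      rw [List.filter_cons_of_neg (by simpa using ha), h0]
      cases i with
      | zero => simpa using ha
      | succ i =>
        have := ih hL'.2 i
        rw [h0] at this
        simpa using this

theorem lt_row {n : ℕ} (l : n.Partition) (i j : ℕ) : j < row l i ↔ i < col l j := by
  unfold row col
  rw [list_lt _ (Multiset.pairwise_sort _ _)]
  conv_rhs => rw [← Multiset.sort_eq (l.parts) (· ≥ ·)]
  rw [Multiset.filter_coe, Multiset.coe_card]

theorem card_filter_succ (M : Multiset ℕ) (j : ℕ) :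
    (M.filter (fun p => j < p)).card = (M.filter (fun p => j + 1 < p)).card + M.count (j + 1) := by
  induction M using Multiset.induction_on with
  | empty => simp
  | cons a M ih =>
    rw [Multiset.filter_cons, Multiset.filter_cons, Multiset.count_cons, Multiset.card_add,
      Multiset.card_add, ih]
    split_ifs <;> simp <;> omega

theorem col_succ {n : ℕ} (l : n.Partition) (j : ℕ) :
    col l j = col l (j + 1) + l.parts.count (j + 1) := card_filter_succ _ _

theorem col_le {n : ℕ} (l : n.Partition) (j : ℕ) : col l j ≤ n := by
  have h1 : col l j ≤ l.parts.card := Multiset.card_le_card (Multiset.filter_le _ _)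
  have h2 : l.parts.card ≤ l.parts.sum := by
    have := Multiset.card_nsmul_le_sum (s := l.parts) (a := 1) (fun x hx => l.parts_pos hx)
    simpa using this
  rw [l.parts_sum] at h2
  omega

open Classical in
theorem numHooks_two {n : ℕ} (l : n.Partition) :
    numHooks 2 l = ∑ j ∈ range n, ((if 2 ≤ l.parts.count (j + 1) then 1 else 0) +
      (if j + 2 ∈ l.parts ∧ j + 1 ∉ l.parts then 1 else 0)) := by
  unfold numHooks
  rw [card_filter, sum_product_right]
  apply sum_congr rfl
  intro j _
  have c0 := col_succ l j
  have c1 := col_succ l (j + 1)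
  have hn := col_le l j
  have hmem : ∀ s, s ∈ l.parts ↔ 0 < l.parts.count s := fun s => Multiset.count_pos.symm
  rw [show j + 1 + 1 = j + 2 by ring] at c1
  have hiff : ∀ i, (j < row l i ∧ hookLength l i j = 2) ↔
      ((i + 1 = col l j ∧ (j + 2 ∈ l.parts ∧ j + 1 ∉ l.parts)) ∨
        (i + 2 = col l j ∧ 2 ≤ l.parts.count (j + 1))) := by
    intro i
    have h0 := lt_row l i j
    have h1 := lt_row l i (j + 1)
    have h2 := lt_row l i (j + 2)
    rw [hmem, hmem]
    unfold hookLength
    omega
  have hs : ∀ i ∈ range n, (if (j < row l i ∧ hookLength l i j = 2) then 1 else 0) =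
      (if i + 2 = col l j then (if 2 ≤ l.parts.count (j + 1) then 1 else 0) else 0) +
      (if i + 1 = col l j then (if j + 2 ∈ l.parts ∧ j + 1 ∉ l.parts then 1 else 0) else 0) := by
    intro i _
    rw [if_congr (hiff i) rfl rfl]
    have := hmem (j + 1)
    split_ifs <;> first | rfl | (exfalso; omega) | (exfalso; tauto)
  rw [sum_congr rfl hs, sum_add_distrib]
  congr 1
  · by_cases hc : 2 ≤ l.parts.count (j + 1)
    · rw [sum_eq_single (col l j - 2)]
      · rw [if_pos (by omega)]
      · intro i _ hi
        rw [if_neg (by omega)]
      · intro h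
        exfalso
        apply h
        rw [mem_range]
        omega
    · simp [hc]
  · by_cases hc : j + 2 ∈ l.parts ∧ j + 1 ∉ l.parts
    · have h2 : 0 < l.parts.count (j + 2) := (hmem _).1 hc.1
      rw [sum_eq_single (col l j - 1)]
      · rw [if_pos (by omega)]
      · intro i _ hi
        rw [if_neg (by omega)]
      · intro h
        exfalso
        apply h
        rw [mem_range]
        omega
    · simp [hc]

open Classical in
theorem card_filter_eq (n : ℕ) (φ ψ : Multiset ℕ → Prop) :
    ((univ.filter (fun l : n.Partition => ψ l.parts)).filter (fun l => φ l.parts)).card =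
      cntP n (fun M => φ M ∧ ψ M) := by
  unfold cntP
  rw [Nat.card_eq_fintype_card, Fintype.card_subtype, filter_filter]
  congr 1
  ext l
  simp [and_comm]

theorem b_eq (t n : ℕ) (ht : 2 ≤ t) : (b t 2 n : ℤ) = Phi t (gz (R t) n) n := by
  classical
  rw [← star t n ht (gz (R t) n) (fun k hk => gz_zero _ _ _ hk)]
  have h1 : b t 2 n = ∑ j ∈ range n,
      (cntP n (fun M => 2 ≤ M.count (j + 1) ∧ R t M) +
        cntP n (fun M => (j + 2 ∈ M ∧ j + 1 ∉ M) ∧ R t M)) := by
    unfold b
    have h2 : ∀ l ∈ univ.filter (fun l : n.Partition => IsRegular t l), numHooks 2 l =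
        ∑ j ∈ range n, ((if 2 ≤ l.parts.count (j + 1) then 1 else 0) +
          (if j + 2 ∈ l.parts ∧ j + 1 ∉ l.parts then 1 else 0)) :=
      fun l _ => by convert numHooks_two l
    rw [sum_congr rfl h2, sum_comm]
    apply sum_congr rfl
    intro j _
    rw [sum_add_distrib, ← card_filter_eq, ← card_filter_eq, card_filter, card_filter]
    congr 1
    · refine sum_congr ?_ (fun l _ => by split_ifs <;> rfl)
      ext l
      rw [mem_filter, mem_filter]
      exact Iff.rfl
    · refine sum_congr ?_ (fun l _ => by split_ifs <;> rfl)
      ext l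
      rw [mem_filter, mem_filter]
      exact Iff.rfl
  rw [h1]
  push_cast
  apply sum_congr rfl
  intro j _
  rw [count_two t n (j + 1) (by omega), count_one t n (j + 2) (j + 1) (by omega) (by omega) (by omega)]
  rw [show 2 * (j + 1) = 2 * j + 2 by ring, show j + 2 + (j + 1) = 2 * j + 3 by ring]

/-- **Monotonicity in `t` of the `2`-hook totals.**  For all `t ≥ 3` and all `n`,
`b_{t,2}(n) ≤ b_{t+1,2}(n)`. -/
theorem result : ∀ t n : ℕ, 3 ≤ t → b t 2 n ≤ b (t + 1) 2 n := by
  intro t n ht
  have := main_ineq t n ht
  rw [← b_eq t n (by omega), ← b_eq (t + 1) n (by omega)] at this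
  exact_mod_cast this

end Pool.Agent.Results.MP_6996b5_co.TwoHookMonotone
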